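import Mathlib

/-!
# MP_03af15_an: the largest zero modulus for the class `U_n` is `a + n - 1`
-/

open Polynomial Finset

namespace Pool.Agent.Results.MP_03af15_an.LargestZero

/-- `(a)_k = a (a+1) ⋯ (a+k-1)` -/
def poch (a : ℝ) (k : ℕ) : ℝ := ∏ i ∈ range k, (a + i)

/-- `e_k = x (x-1) ⋯ (x-k+1) / (a)_k` -/
noncomputable def e (a : ℝ) (k : ℕ) : ℝ[X] :=
  C (poch a k)⁻¹ * ∏ i ∈ range k, (X - C (i : ℝ))

/-- `L` is the linear map `𝓛_a`, i.e. it maps `e_k` to `x ^ k` for all `k`. -/
def IsL (a : ℝ) (L : ℝ[X] →ₗ[ℝ] ℝ[X]) : Prop := ∀ k : ℕ, L (e a k) = X ^ k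

/-- the class `U_n`: real polynomials of degree exactly `n` such that every zero of `L P` is real
and lies in `[-1, 0]` -/
def U (L : ℝ[X] →ₗ[ℝ] ℝ[X]) (n : ℕ) : Set ℝ[X] :=
  {P | P.degree = n ∧ ∀ z : ℂ, aeval z (L P) = 0 → z.im = 0 ∧ -1 ≤ z.re ∧ z.re ≤ 0}

/-- the set of all moduli of complex zeros of members of `U_n` -/
def moduli (L : ℝ[X] →ₗ[ℝ] ℝ[X]) (n : ℕ) : Set ℝ :=
  {m | ∃ P ∈ U L n, ∃ z : ℂ, aeval z P = 0 ∧ m = ‖z‖}

theorem poch_pos {a : ℝ} (ha : 0 < a) (k : ℕ) : 0 < poch a k :=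
  prod_pos fun i _ => by positivity

theorem degree_e {a : ℝ} (ha : 0 < a) (k : ℕ) : (e a k).degree = k := by
  unfold e
  rw [degree_C_mul (inv_ne_zero (poch_pos ha k).ne'), degree_prod]
  have h : ∀ i ∈ range k, (X - C (i : ℝ) : ℝ[X]).degree = 1 := fun i _ => degree_X_sub_C (i : ℝ)
  rw [sum_congr rfl h]
  simp

/-- the sequence of the `e_k` -/
noncomputable def S {a : ℝ} (ha : 0 < a) : Polynomial.Sequence ℝ := ⟨e a, degree_e ha⟩

theorem S_unit {a : ℝ} (ha : 0 < a) (i : ℕ) : IsUnit (S ha i).leadingCoeff :=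
  isUnit_iff_ne_zero.mpr (leadingCoeff_ne_zero.mpr ((S ha).ne_zero i))

/-- the inverse of `𝓛_a` -/
noncomputable def J (a : ℝ) : ℝ[X] →ₗ[ℝ] ℝ[X] := (basisMonomials ℝ).constr ℝ (e a)

theorem J_pow (a : ℝ) (k : ℕ) : J a (X ^ k) = e a k := by
  have : (X ^ k : ℝ[X]) = basisMonomials ℝ k := by
    rw [coe_basisMonomials]
    exact X_pow_eq_monomial k
  rw [this]
  exact (basisMonomials ℝ).constr_basis ℝ _ _

theorem exists_L {a : ℝ} (ha : 0 < a) : ∃! L : ℝ[X] →ₗ[ℝ] ℝ[X], IsL a L := by
  refine ⟨((S ha).basis (S_unit ha)).constr ℝ fun k => X ^ k, ?_, ?_⟩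
  · intro k
    have h := ((S ha).basis (S_unit ha)).constr_basis ℝ (fun k : ℕ => (X ^ k : ℝ[X])) k
    rw [Polynomial.Sequence.basis_eq_self] at h
    exact h
  · intro L hL
    refine ((S ha).basis (S_unit ha)).ext fun k => ?_
    rw [((S ha).basis (S_unit ha)).constr_basis ℝ (fun k : ℕ => (X ^ k : ℝ[X])) k,
      Polynomial.Sequence.basis_eq_self]
    exact hL k

theorem L_J {a : ℝ} {L : ℝ[X] →ₗ[ℝ] ℝ[X]} (hL : IsL a L) (P : ℝ[X]) : L (J a P) = P := by
  have : L ∘ₗ J a = LinearMap.id := by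
    refine (basisMonomials ℝ).ext fun k => ?_
    have hk : (basisMonomials ℝ k : ℝ[X]) = X ^ k := by
      rw [coe_basisMonomials]
      exact (X_pow_eq_monomial k).symm
    rw [hk, LinearMap.comp_apply, J_pow, hL k, LinearMap.id_apply]
  exact LinearMap.congr_fun this P

theorem J_L {a : ℝ} (ha : 0 < a) {L : ℝ[X] →ₗ[ℝ] ℝ[X]} (hL : IsL a L) (P : ℝ[X]) :
    J a (L P) = P := by
  have : J a ∘ₗ L = LinearMap.id := by
    refine ((S ha).basis (S_unit ha)).ext fun k => ?_
    rw [Polynomial.Sequence.basis_eq_self]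
    change J a (L (e a k)) = e a k
    rw [hL k, J_pow]
  exact LinearMap.congr_fun this P

/-- `J` preserves the degree -/
theorem degree_J {a : ℝ} (ha : 0 < a) (Q : ℝ[X]) : (J a Q).degree = Q.degree := by
  by_cases hQ : Q = 0
  · rw [hQ, map_zero]
  have h1 : J a Q = ∑ k ∈ range (Q.natDegree + 1), C (Q.coeff k) * e a k := by
    conv_lhs => rw [Q.as_sum_range_C_mul_X_pow]
    rw [map_sum]
    refine sum_congr rfl fun k _ => ?_
    rw [C_mul', map_smul, J_pow, ← C_mul']
  rw [h1, sum_range_succ]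
  have h2 : (C (Q.coeff Q.natDegree) * e a Q.natDegree).degree = Q.natDegree := by
    rw [degree_C_mul (by simpa using hQ), degree_e ha]
  have h3 : (∑ k ∈ range Q.natDegree, C (Q.coeff k) * e a k).degree < Q.natDegree := by
    refine (degree_sum_le _ _).trans_lt ?_
    rw [Finset.sup_lt_iff (WithBot.bot_lt_coe _)]
    intro k hk
    refine (degree_mul_le _ _).trans_lt ?_
    rw [degree_e ha]
    calc (C (Q.coeff k)).degree + (k : WithBot ℕ) ≤ 0 + k := by gcongr; exact degree_C_le
      _ = k := zero_add _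
      _ < Q.natDegree := by exact_mod_cast mem_range.mp hk
  rw [degree_add_eq_right_of_degree_lt (by rw [h2]; exact h3), h2, degree_eq_natDegree hQ]

/-- the functional `F ↦ (J F)(z)` -/
noncomputable def Lam (a : ℝ) (z : ℂ) : ℝ[X] →ₗ[ℝ] ℂ := (aeval z).toLinearMap ∘ₗ J a

theorem Lam_apply (a : ℝ) (z : ℂ) (F : ℝ[X]) : Lam a z F = aeval z (J a F) := rfl

theorem Lam_succ {a : ℝ} (ha : 0 < a) (z : ℂ) (k : ℕ) :
    ((a : ℂ) + k) * Lam a z (X ^ (k + 1)) = (z - k) * Lam a z (X ^ k) := by
  rw [Lam_apply, Lam_apply, J_pow, J_pow]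
  unfold e
  have h : poch a (k + 1) = poch a k * (a + k) := prod_range_succ _ _
  have h1 : (poch a k : ℂ) ≠ 0 := by exact_mod_cast (poch_pos ha k).ne'
  have h2 : ((a : ℂ) + k) ≠ 0 := by
    have : (a + k : ℝ) ≠ 0 := by positivity
    exact_mod_cast this
  rw [h, prod_range_succ]
  simp only [map_mul, aeval_C, map_sub, aeval_X, Complex.coe_algebraMap, Complex.ofReal_inv,
    Complex.ofReal_mul, Complex.ofReal_add, Complex.ofReal_natCast]
  field_simp

theorem Lam_key {a : ℝ} (ha : 0 < a) (z : ℂ) (F : ℝ[X]) :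
    (a : ℂ) * Lam a z (X * F) + Lam a z (X * (X + 1) * derivative F) = z * Lam a z F := by
  induction F using Polynomial.induction_on' with
  | add p q hp hq =>
    rw [derivative_add, mul_add X p q, mul_add (X * (X + 1)), map_add, map_add, map_add]
    linear_combination hp + hq
  | monomial k c =>
    have h1 : (X * monomial k c : ℝ[X]) = c • X ^ (k + 1) := by
      rw [← C_mul_X_pow_eq_monomial, ← C_mul']
      ring
    have h2 : (X * (X + 1) * derivative (monomial k c) : ℝ[X]) =
        (c * k) • X ^ (k + 1) + (c * k) • X ^ k := by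
      rw [derivative_monomial, ← C_mul_X_pow_eq_monomial, ← C_mul', ← C_mul']
      rcases k with _ | k
      · simp
      · rw [Nat.add_sub_cancel]
        ring
    have h3 : (monomial k c : ℝ[X]) = c • X ^ k := by
      rw [← C_mul_X_pow_eq_monomial, ← C_mul']
    rw [h1, h2, h3, map_add, map_smul, map_smul, map_smul, map_smul]
    have h := Lam_succ ha z k
    simp only [Complex.real_smul, Complex.ofReal_mul, Complex.ofReal_natCast]
    linear_combination (c : ℂ) * h

/-- the product `∏ (X + r_i)` -/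
noncomputable def Q {ι : Type} (r : ι → ℝ) (s : Finset ι) : ℝ[X] := ∏ i ∈ s, (X + C (r i))

theorem Lam_rec {a : ℝ} (ha : 0 < a) (z : ℂ) {ι : Type} [DecidableEq ι] (r : ι → ℝ)
    (s : Finset ι) :
    (a : ℂ) * Lam a z (X * Q r s) + ∑ i ∈ s, (Lam a z (X * Q r s) + (1 - r i) * Lam a z (Q r s)
      - r i * (1 - r i) * Lam a z (Q r (s.erase i))) = z * Lam a z (Q r s) := by
  have h := Lam_key ha z (Q r s)
  have h1 : derivative (Q r s) = ∑ i ∈ s, Q r (s.erase i) := by
    unfold Q
    rw [derivative_prod_finset]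
    refine sum_congr rfl fun i _ => ?_
    simp
  have h2 : X * (X + 1) * derivative (Q r s) = ∑ i ∈ s, (X * Q r s + C (1 - r i) * Q r s
      - C (r i * (1 - r i)) * Q r (s.erase i)) := by
    rw [h1, mul_sum]
    refine sum_congr rfl fun i hi => ?_
    have h3 : Q r s = (X + C (r i)) * Q r (s.erase i) := (mul_prod_erase s _ hi).symm
    rw [h3]
    simp only [C_sub, C_mul, C_1]
    ring
  rw [h2, map_sum] at h
  rw [← h]
  congr 1
  refine sum_congr rfl fun i _ => ?_
  rw [map_sub, map_add, C_mul', C_mul', map_smul, map_smul, Complex.real_smul, Complex.real_smul]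
  simp only [Complex.ofReal_mul, Complex.ofReal_sub, Complex.ofReal_one]

theorem disc (p q : ℂ) (r : ℝ) (h0 : 0 ≤ r) (h1 : r ≤ 1) (h : ‖q‖ ≤ ‖2 * p + q‖) :
    ‖(2 * r - 1) * p + r * q‖ ≤ ‖p + r * q‖ := by
  rw [← abs_of_nonneg (norm_nonneg q), ← abs_of_nonneg (norm_nonneg (2 * p + q)), ← sq_le_sq,
    Complex.sq_norm, Complex.sq_norm, Complex.normSq_apply, Complex.normSq_apply] at h
  rw [← abs_of_nonneg (norm_nonneg ((2 * r - 1) * p + r * q)),
    ← abs_of_nonneg (norm_nonneg (p + r * q)), ← sq_le_sq,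
    Complex.sq_norm, Complex.sq_norm, Complex.normSq_apply, Complex.normSq_apply]
  simp only [Complex.add_re, Complex.mul_re, Complex.add_im, Complex.mul_im, Complex.sub_re,
    Complex.sub_im, Complex.ofReal_re, Complex.ofReal_im, Complex.one_re, Complex.one_im,
    Complex.re_ofNat, Complex.im_ofNat] at h ⊢
  nlinarith [mul_nonneg (mul_nonneg h0 (sub_nonneg.mpr h1)) (sub_nonneg.mpr h)]

/-- the inductive claim -/
theorem main_claim {a : ℝ} (ha : 0 < a) (z : ℂ) {ι : Type} [DecidableEq ι] (r : ι → ℝ)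
    (hr : ∀ i, 0 ≤ r i ∧ r i ≤ 1) (s : Finset ι) (hs : a + s.card < ‖z‖) :
    Lam a z (Q r s) ≠ 0 ∧
      ‖Lam a z (Q r s)‖ < ‖2 * Lam a z (X * Q r s) + Lam a z (Q r s)‖ := by
  induction s using Finset.strongInduction with
  | H s ih =>
    have hi : ∀ i ∈ s, Lam a z (Q r (s.erase i)) ≠ 0 ∧ ‖Lam a z (Q r (s.erase i))‖ <
        ‖2 * Lam a z (X * Q r (s.erase i)) + Lam a z (Q r (s.erase i))‖ := by
      intro i hi
      refine ih (s.erase i) (erase_ssubset hi) (lt_of_le_of_lt ?_ hs)
      have : ((s.erase i).card : ℝ) ≤ s.card := by exact_mod_cast card_erase_le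
      linarith
    have hq : ∀ i ∈ s, Lam a z (Q r s) =
        Lam a z (X * Q r (s.erase i)) + r i * Lam a z (Q r (s.erase i)) := by
      intro i hi
      have h3 : Q r s = X * Q r (s.erase i) + C (r i) * Q r (s.erase i) := by
        rw [← add_mul]
        exact (mul_prod_erase s _ hi).symm
      rw [h3, map_add, C_mul', map_smul, Complex.real_smul]
    -- `q ≠ 0`
    have hq0 : Lam a z (Q r s) ≠ 0 := by
      rcases s.eq_empty_or_nonempty with rfl | ⟨i, his⟩
      · have h1 : Q r (∅ : Finset ι) = X ^ 0 := by simp [Q]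
        rw [h1, Lam_apply, J_pow]
        simp [e, poch]
      · intro h0
        rw [hq i his] at h0
        have h1 := (hi i his).2
        have h2 : Lam a z (X * Q r (s.erase i)) = - (r i * Lam a z (Q r (s.erase i))) := by
          linear_combination h0
        rw [h2] at h1
        have h3 : 2 * -((r i : ℂ) * Lam a z (Q r (s.erase i))) + Lam a z (Q r (s.erase i)) =
            ((1 - 2 * r i : ℝ) : ℂ) * Lam a z (Q r (s.erase i)) := by
          push_cast
          ring
        rw [h3, norm_mul, Complex.norm_real, Real.norm_eq_abs] at h1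
        have h4 : |1 - 2 * r i| ≤ 1 := by
          rw [abs_le]
          constructor <;> linarith [(hr i).1, (hr i).2]
        have h5 : |1 - 2 * r i| * ‖Lam a z (Q r (s.erase i))‖ ≤
            1 * ‖Lam a z (Q r (s.erase i))‖ :=
          mul_le_mul_of_nonneg_right h4 (norm_nonneg _)
        linarith
    refine ⟨hq0, ?_⟩
    -- abbreviations
    set q := Lam a z (Q r s) with hqdef
    set p := Lam a z (X * Q r s) with hpdef
    let h : ι → ℂ := fun i => q - 2 * (1 - r i) * q + 2 * r i * (1 - r i) *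
      Lam a z (Q r (s.erase i))
    have hh : ∀ i ∈ s, ‖h i‖ ≤ ‖q‖ := by
      intro i his
      have e1 : h i = (2 * r i - 1) * Lam a z (X * Q r (s.erase i)) +
          r i * Lam a z (Q r (s.erase i)) := by
        change q - 2 * (1 - r i) * q + 2 * r i * (1 - r i) * Lam a z (Q r (s.erase i)) = _
        rw [hq i his]
        ring
      rw [e1, hq i his]
      exact disc _ _ _ (hr i).1 (hr i).2 (hi i his).2.le
    have hrec := Lam_rec ha z r s
    rw [← hqdef, ← hpdef] at hrec
    have hsum : ((a : ℂ) + s.card) * (2 * p + q) = 2 * z * q + a * q + ∑ i ∈ s, h i := by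
      have e2 : ∑ i ∈ s, h i = ∑ i ∈ s, (q - 2 * (p + (1 - r i) * q
          - r i * (1 - r i) * Lam a z (Q r (s.erase i))) + 2 * p) := by
        refine sum_congr rfl fun i _ => ?_
        change q - 2 * (1 - r i) * q + 2 * r i * (1 - r i) * Lam a z (Q r (s.erase i)) = _
        ring
      rw [e2, sum_add_distrib, sum_sub_distrib, sum_const, sum_const, ← mul_sum, nsmul_eq_mul,
        nsmul_eq_mul]
      linear_combination 2 * hrec
    have hn : ‖∑ i ∈ s, h i‖ ≤ s.card * ‖q‖ := by
      refine (norm_sum_le _ _).trans ((sum_le_sum hh).trans ?_)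
      rw [sum_const, nsmul_eq_mul]
    have hqpos : 0 < ‖q‖ := norm_pos_iff.mpr hq0
    have hcard : (0 : ℝ) ≤ s.card := by positivity
    have h6 : ‖((a : ℂ) + s.card) * (2 * p + q)‖ = (a + s.card) * ‖2 * p + q‖ := by
      rw [norm_mul]
      congr 1
      have : ((a : ℂ) + s.card) = ((a + s.card : ℝ) : ℂ) := by push_cast; ring
      rw [this, Complex.norm_real, Real.norm_eq_abs, abs_of_nonneg (by positivity)]
    have h7 : 2 * ‖z‖ * ‖q‖ ≤ (a + s.card) * ‖2 * p + q‖ + a * ‖q‖ + s.card * ‖q‖ := by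
      have e3 : 2 * z * q = ((a : ℂ) + s.card) * (2 * p + q) - a * q - ∑ i ∈ s, h i := by
        rw [hsum]
        ring
      have e4 : ‖2 * z * q‖ = 2 * ‖z‖ * ‖q‖ := by
        rw [norm_mul, norm_mul]
        simp
      have e5 : ‖(a : ℂ) * q‖ = a * ‖q‖ := by
        rw [norm_mul, Complex.norm_real, Real.norm_eq_abs, abs_of_pos ha]
      rw [← e4, e3]
      refine (norm_sub_le _ _).trans ?_
      refine add_le_add ((norm_sub_le _ _).trans ?_) hn
      rw [h6, e5]
    have h8 : (a + s.card) * ‖q‖ < (a + s.card) * ‖2 * p + q‖ := by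
      have : (a + s.card) * ‖q‖ < ‖z‖ * ‖q‖ := mul_lt_mul_of_pos_right hs hqpos
      nlinarith
    exact lt_of_mul_lt_mul_left h8 (by positivity)

/-- factorisation of a real polynomial with all complex zeros in `[-1, 0]` -/
theorem exists_factor {F : ℝ[X]}
    (h : ∀ z : ℂ, aeval z F = 0 → z.im = 0 ∧ -1 ≤ z.re ∧ z.re ≤ 0) :
    ∃ r : Fin F.natDegree → ℝ, (∀ i, 0 ≤ r i ∧ r i ≤ 1) ∧
      F = C F.leadingCoeff * Q r univ := by
  have hinj : Function.Injective (algebraMap ℝ ℂ) := (algebraMap ℝ ℂ).injective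
  have hsp := IsAlgClosed.splits (F.map (algebraMap ℝ ℂ))
  have hprod := hsp.eq_prod_roots
  have hcard : (F.map (algebraMap ℝ ℂ)).roots.card = F.natDegree := by
    rw [← hsp.natDegree_eq_card_roots, natDegree_map]
  obtain ⟨l, hl⟩ := Quot.exists_rep (F.map (algebraMap ℝ ℂ)).roots
  have hl : (l : Multiset ℂ) = (F.map (algebraMap ℝ ℂ)).roots := hl
  have hlen : l.length = F.natDegree := by
    rw [← hcard, ← hl]
    rfl
  have hroot : ∀ x ∈ l, x.im = 0 ∧ -1 ≤ x.re ∧ x.re ≤ 0 := by
    intro x hx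
    apply h
    have : x ∈ (F.map (algebraMap ℝ ℂ)).roots := by
      rw [← hl]
      exact hx
    have h1 := (mem_roots'.mp this).2
    rw [IsRoot, eval_map_algebraMap] at h1
    exact h1
  rw [← hlen]
  refine ⟨fun i => - (l.get i).re, fun i => ?_, ?_⟩
  · have := hroot (l.get i) (l.get_mem i)
    constructor <;> linarith [this.2.1, this.2.2]
  · apply map_injective (algebraMap ℝ ℂ) hinj
    rw [hprod, ← hl]
    unfold Q
    rw [Polynomial.map_mul, map_C, Polynomial.map_prod, leadingCoeff_map]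
    congr 1
    have h2 : ∀ i : Fin l.length, (X + C (-(l.get i).re) : ℝ[X]).map (algebraMap ℝ ℂ) =
        X - C (l.get i) := by
      intro i
      have h3 := (hroot (l.get i) (l.get_mem i)).1
      have h4 : (((l.get i).re : ℝ) : ℂ) = l.get i := by
        apply Complex.ext
        · simp
        · rw [Complex.ofReal_im, h3]
      rw [Polynomial.map_add, map_X, map_C, map_neg, C_neg, ← sub_eq_add_neg]
      congr 2
    rw [prod_congr rfl fun i _ => h2 i]
    have h5 : ((l : Multiset ℂ).map fun x => X - C x).prod = (l.map fun x => X - C x).prod := by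
      simp
    rw [h5]
    have h6 := List.prod_ofFn (f := fun i : Fin l.length => (X - C (l.get i) : ℂ[X]))
    rw [← h6]
    congr 1
    apply List.ext_get
    · simp
    · intro n h1 h2
      simp

theorem result (a : ℝ) (ha : 0 < a) :
    (∃! L : ℝ[X] →ₗ[ℝ] ℝ[X], IsL a L) ∧
    ∀ L : ℝ[X] →ₗ[ℝ] ℝ[X], IsL a L → ∀ n : ℕ, 1 ≤ n →
      IsGreatest (moduli L n) (a + n - 1) := by
  classical
  refine ⟨exists_L ha, ?_⟩
  intro L hL n hn
  constructor
  · -- attained by `L P = (X + 1) ^ n`
    let r : Fin n → ℝ := fun _ => 1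
    refine ⟨J a ((X + 1) ^ n), ⟨?_, ?_⟩, -((a + n - 1 : ℝ) : ℂ), ?_, ?_⟩
    · rw [degree_J ha, degree_pow]
      have : (X + 1 : ℝ[X]).degree = 1 := by
        rw [← C_1]
        exact degree_X_add_C 1
      rw [this]
      simp
    · intro z hz
      rw [L_J hL] at hz
      have h1 : (z + 1) ^ n = 0 := by simpa using hz
      have h2 : z = -1 := by
        have := pow_eq_zero_iff (n := n) (by omega) |>.mp h1
        linear_combination this
      rw [h2]
      simp
    · obtain ⟨m, rfl⟩ : ∃ m, n = m + 1 := ⟨n - 1, by omega⟩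
      have h1 := Lam_rec ha (-((a + (m + 1 : ℕ) - 1 : ℝ) : ℂ)) (fun _ : Fin m => (1 : ℝ)) univ
      have h2 : Q (fun _ : Fin m => (1 : ℝ)) univ = (X + 1) ^ m := by
        unfold Q
        rw [prod_const, card_univ, Fintype.card_fin, C_1]
      rw [h2] at h1
      have h3 : (X + 1 : ℝ[X]) ^ (m + 1) = X * (X + 1) ^ m + (X + 1) ^ m := by ring
      rw [← Lam_apply, h3, map_add]
      have h4 : ((a : ℂ) + m) ≠ 0 := by
        have : (a + m : ℝ) ≠ 0 := by positivity
        exact_mod_cast this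
      have h5 : ((a : ℂ) + m) * (Lam a (-((a + (m + 1 : ℕ) - 1 : ℝ) : ℂ)) (X * (X + 1) ^ m) +
          Lam a (-((a + (m + 1 : ℕ) - 1 : ℝ) : ℂ)) ((X + 1) ^ m)) = 0 := by
        simp only [Complex.ofReal_one, sub_self, zero_mul, mul_zero, add_zero, sub_zero,
          sum_const, card_univ, Fintype.card_fin, nsmul_eq_mul] at h1
        push_cast at h1 ⊢
        linear_combination h1
      exact (mul_eq_zero.mp h5).resolve_left h4
    · rw [norm_neg, Complex.norm_real, Real.norm_eq_abs, abs_of_nonneg]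
      have : (1 : ℝ) ≤ n := by exact_mod_cast hn
      linarith
  · -- upper bound
    rintro m ⟨P, ⟨hdeg, hzero⟩, z, hz, rfl⟩
    by_contra hlt
    push Not at hlt
    have hP : P ≠ 0 := by
      intro h0
      rw [h0, degree_zero] at hdeg
      exact absurd hdeg (by simp)
    have hLP : J a (L P) = P := J_L ha hL P
    have hLP0 : L P ≠ 0 := by
      intro h0
      rw [h0, map_zero] at hLP
      exact hP hLP.symm
    have hdegL : (L P).natDegree = n := by
      have h1 : (L P).degree = n := by rw [← degree_J ha, hLP, hdeg]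
      exact natDegree_eq_of_degree_eq_some h1
    obtain ⟨r, hr, hfac⟩ := exists_factor hzero
    have hne : (univ : Finset (Fin (L P).natDegree)).Nonempty := by
      rw [univ_nonempty_iff, hdegL]
      exact ⟨⟨0, hn⟩⟩
    obtain ⟨i, hi⟩ := hne
    have hclaim := main_claim ha z r hr (univ.erase i) (by
      rw [card_erase_of_mem hi, card_univ, Fintype.card_fin, hdegL, Nat.cast_sub hn]
      push_cast
      linarith)
    have h2 : aeval z P = (L P).leadingCoeff * Lam a z (Q r univ) := by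
      conv_lhs => rw [← hLP, hfac]
      rw [C_mul', map_smul, map_smul, ← Lam_apply, Complex.real_smul]
    have h3 : Lam a z (Q r univ) =
        Lam a z (X * Q r (univ.erase i)) + r i * Lam a z (Q r (univ.erase i)) := by
      have h3 : Q r univ = X * Q r (univ.erase i) + C (r i) * Q r (univ.erase i) := by
        rw [← add_mul]
        exact (mul_prod_erase univ _ hi).symm
      rw [h3, map_add, C_mul', map_smul, Complex.real_smul]
    rw [h2] at hz
    have h4 : ((L P).leadingCoeff : ℂ) ≠ 0 := by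
      exact_mod_cast leadingCoeff_ne_zero.mpr hLP0
    have h5 := (mul_eq_zero.mp hz).resolve_left h4
    rw [h3] at h5
    have h1 := hclaim.2
    have h6 : Lam a z (X * Q r (univ.erase i)) = - (r i * Lam a z (Q r (univ.erase i))) := by
      linear_combination h5
    rw [h6] at h1
    have h7 : 2 * -((r i : ℂ) * Lam a z (Q r (univ.erase i))) + Lam a z (Q r (univ.erase i)) =
        ((1 - 2 * r i : ℝ) : ℂ) * Lam a z (Q r (univ.erase i)) := by
      push_cast
      ring
    rw [h7, norm_mul, Complex.norm_real, Real.norm_eq_abs] at h1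
    have h8 : |1 - 2 * r i| ≤ 1 := by
      rw [abs_le]
      constructor <;> linarith [(hr i).1, (hr i).2]
    have h9 : |1 - 2 * r i| * ‖Lam a z (Q r (univ.erase i))‖ ≤
        1 * ‖Lam a z (Q r (univ.erase i))‖ :=
      mul_le_mul_of_nonneg_right h8 (norm_nonneg _)
    linarith

end Pool.Agent.Results.MP_03af15_an.LargestZero
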